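import Pool.Agent.helper27.PC2.Stmt2
import Pool.Agent.helper93.PC.SD

/-!
# PC project, module YD: the vectors at `q = 1` are killed by `Low 1 1`
-/

namespace Pool.Agent.helper27.PC

open Module Polynomial

theorem YD_Rib_zero (w : Lab → ℤ) (hw : ∀ l, w l = 0) (a : ℕ) (u : St →₀ ℤ) : Rib w a u = 0 := by
  unfold Rib
  rw [Finsupp.linearCombination_apply]
  apply Finset.sum_eq_zero
  intro S _
  simp [hw]

theorem YD_Dg_zero (n k : ℕ) (hk : k + 1 ≤ n) (u : St →₀ ℤ) (hu : GV n k u) :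
    Dg (fun l => 1 * yt l - if 1 ≤ l.2 then 1 * yt (dn 1 l) else 0) u = 0 := by
  unfold Dg
  rw [Finsupp.linearCombination_apply]
  apply Finset.sum_eq_zero
  intro S hS
  have hg := hu S hS
  have hpos : ∀ b : Bool, ((b, 0) : Lab) ∈ S := by
    intro b
    by_contra hb
    have h := SD_good_hole hg (b := b) (h := 0) (fun h => hb (SD_mem_pos.1 h))
    omega
  have hsum : ∑ l ∈ S, ((fun l : Lab => 1 * yt l - if 1 ≤ l.2 then 1 * yt (dn 1 l) else 0) l) = 0 := by
    have h1 : ∀ l ∈ S, (1 * yt l - if 1 ≤ l.2 then 1 * yt (dn 1 l) else 0) =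
        if l ∈ ({((true, 0) : Lab), (false, 0)} : Finset Lab) then yt l else 0 := by
      rintro ⟨b, p⟩ _
      by_cases hp : 1 ≤ p
      · have hp0 : p ≠ 0 := by omega
        simp [hp, hp0, yt, dn]
      · have hp0 : p = 0 := by omega
        subst hp0
        cases b <;> simp [yt]
    rw [Finset.sum_congr rfl h1, ← Finset.sum_filter]
    have h2 : S.filter (fun l => l ∈ ({((true, 0) : Lab), (false, 0)} : Finset Lab)) =
        {((true, 0) : Lab), (false, 0)} := by
      ext l
      rw [Finset.mem_filter]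
      constructor
      · exact fun h => h.2
      · intro h
        refine ⟨?_, h⟩
        rw [Finset.mem_insert, Finset.mem_singleton] at h
        rcases h with h | h
        · rw [h]; exact hpos true
        · rw [h]; exact hpos false
    rw [h2, Finset.sum_pair (by simp)]
    simp [yt]
  simp only [hsum, Finsupp.single_zero, smul_zero]

theorem YD_comm (hLB : LB_stmt) {n k b : ℕ} {u : St →₀ ℤ} (hb : 1 ≤ b) (hu : GV n k u)
    (hk : k + b ≤ n) : Low (fun _ => (1 : ℤ)) 1 (Rib yt b u) = Rib yt b (Low (fun _ => (1 : ℤ)) 1 u) := by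
  obtain ⟨h1, h2, -⟩ := hLB ℤ (fun _ => (1 : ℤ)) yt n k 1 b u le_rfl hb hu hk
  rw [← sub_eq_zero]
  rcases Nat.lt_or_ge 1 b with h | h
  · rw [h1 h]
    apply YD_Rib_zero
    rintro ⟨c, p⟩
    simp [yt, dn]
  · have hb1 : b = 1 := by omega
    subst hb1
    rw [h2 rfl]
    exact YD_Dg_zero n k hk u hu

theorem YD_aux (hLG : LG_stmt) (hLB : LB_stmt) (n : ℕ) : ∀ (l : List ℕ) (k : ℕ) (u : St →₀ ℤ),
    (∀ a ∈ l, 1 ≤ a) → k + l.sum ≤ n → GV n k u → Low (fun _ => (1 : ℤ)) 1 u = 0 →
    Low (fun _ => (1 : ℤ)) 1 (app yt l u) = 0 := by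
  intro l
  induction l with
  | nil => intro k u _ _ _ h0; exact h0
  | cons a l ih =>
    intro k u hl hk hu h0
    have ha : 1 ≤ a := hl a (by simp)
    rw [List.sum_cons] at hk
    refine ih (k + a) (Rib yt a u) (fun b hb => hl b (by simp [hb])) (by omega)
      (hLG ℤ yt n k a u ha hu).1 ?_
    rw [YD_comm hLB ha hu (by omega), h0, map_zero]

theorem YD (hLG : LG_stmt) (hLB : LB_stmt) : YD_stmt := by
  intro n l hl hs
  have hv : GV n 0 (Finsupp.single (vac n) (1 : ℤ)) := by
    intro S hS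
    have h := Finsupp.support_single_subset hS
    rw [Finset.mem_singleton] at h
    rw [h]
    exact SD_good_vac n
  refine YD_aux hLG hLB n l 0 _ hl (by omega) hv ?_
  exact (hLG ℤ (fun _ => (1 : ℤ)) n 0 1 _ le_rfl hv).2.2 (by norm_num)

end Pool.Agent.helper27.PC
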